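import Mathlib

set_option autoImplicit false

/-!
Every uni-rule normal logic program all of whose odd cycles have an internal delocalizing
triple has a stable model.
-/

namespace Pool.Agent.Results.MP_d24a2a_lc.UniRuleStable

/-- A ground normal rule `head ← pos, not neg`. -/
structure Rule (A : Type*) where
  head : A
  pos : Finset A
  neg : Finset A

variable {A : Type*}

/-- Every atom is the head of at most one rule. -/
def UniRule (P : Finset (Rule A)) : Prop :=
  ∀ r ∈ P, ∀ s ∈ P, r.head = s.head → r = s

/-- `X` is closed under the rules of the reduct `P^M`. -/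
def ModelsReduct (P : Finset (Rule A)) (M X : Set A) : Prop :=
  ∀ r ∈ P, (∀ b ∈ r.neg, b ∉ M) → (∀ a ∈ r.pos, a ∈ X) → r.head ∈ X

/-- `M` is the least model of the reduct `P^M`. -/
def IsStableModel (P : Finset (Rule A)) (M : Set A) : Prop :=
  IsLeast {X : Set A | ModelsReduct P M X} M

/-- The signed arcs of the atom dependency graph: `Arc P false u v` is the positive arc from `u`
to `v`, and `Arc P true u v` the negative one. -/
def Arc (P : Finset (Rule A)) (negative : Bool) (u v : A) : Prop :=
  ∃ r ∈ P, r.head = v ∧ u ∈ (if negative then r.neg else r.pos)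

/-- An elementary directed cycle of the atom dependency graph, with `len + 1` distinct
vertices; the index set `Fin (len + 1)` is used cyclically. -/
structure SignedCycle (P : Finset (Rule A)) where
  len : ℕ
  vert : Fin (len + 1) → A
  inj : Function.Injective vert
  negative : Fin (len + 1) → Bool
  arc : ∀ i, Arc P (negative i) (vert i) (vert (i + 1))

/-- The vertex set of the cycle. -/
def SignedCycle.verts {P : Finset (Rule A)} (C : SignedCycle P) : Set A := Set.range C.vert

/-- The set of signed arcs of the cycle. -/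
def SignedCycle.edges {P : Finset (Rule A)} (C : SignedCycle P) : Set (A × A × Bool) :=
  Set.range fun i => (C.vert i, C.vert (i + 1), C.negative i)

/-- The cycle has an odd number of negative arcs. -/
def SignedCycle.IsOdd {P : Finset (Rule A)} (C : SignedCycle P) : Prop :=
  Odd (Finset.univ.filter fun i => C.negative i = true).card

/-- The cycle has an internal delocalizing triple. -/
def SignedCycle.HasInternalDelocalizingTriple {P : Finset (Rule A)} (C : SignedCycle P) : Prop :=
  ∃ u v₁ v₂ : A, u ∈ C.verts ∧ v₁ ∈ C.verts ∧ v₂ ∈ C.verts ∧ v₁ ≠ v₂ ∧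
    Arc P false u v₁ ∧ (u, v₁, false) ∉ C.edges ∧
    Arc P true u v₂ ∧ (u, v₂, true) ∉ C.edges

/-! ### Relative stable models -/

/-- `M` is a stable model of the rules `R` together with the facts `E`. -/
def StableRel (R : Finset (Rule A)) (E M : Set A) : Prop :=
  E ⊆ M ∧ ModelsReduct R M M ∧ ∀ X : Set A, E ⊆ X → ModelsReduct R M X → M ⊆ X

theorem StableRel.subset_heads {R : Finset (Rule A)} {E M : Set A} (h : StableRel R E M)
    {w : A} (hw : w ∈ M) (hE : w ∉ E) : ∃ r ∈ R, r.head = w := by
  have := h.2.2 (E ∪ {w | ∃ r ∈ R, r.head = w}) Set.subset_union_left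
    (fun r hr _ _ => Or.inr ⟨r, hr, rfl⟩)
  rcases this hw with h1 | h1
  · exact absurd h1 hE
  · exact h1

/-- true atoms outside the facts have a rule with true body -/
theorem StableRel.supported {R : Finset (Rule A)} {E M : Set A} (hU : UniRule R)
    (h : StableRel R E M) {r : Rule A} (hr : r ∈ R) (hw : r.head ∈ M) (hE : r.head ∉ E) :
    (∀ b ∈ r.neg, b ∉ M) ∧ (∀ a ∈ r.pos, a ∈ M) := by
  by_contra hcon
  have key : M ⊆ M \ {r.head} := by
    refine h.2.2 _ ?_ ?_
    · intro x hx
      refine ⟨h.1 hx, ?_⟩
      rintro rfl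
      exact hE hx
    · intro s hs hneg hpos
      have hposM : ∀ a ∈ s.pos, a ∈ M := fun a ha => (hpos a ha).1
      refine ⟨h.2.1 s hs hneg hposM, ?_⟩
      intro hhead
      have : s = r := hU s hs r hr hhead
      subst this
      exact hcon ⟨hneg, hposM⟩
  exact (key hw).2 rfl

/-- The truth value in `M` of the literal on `u` with the given sign. -/
def LitTrue (M : Set A) (negative : Bool) (u : A) : Prop :=
  if negative then u ∉ M else u ∈ M

/-- Atoms affected by a change of `v`, in stages. -/
def Aff (R : Finset (Rule A)) (M : Set A) (v : A) : ℕ → Set A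
  | 0 => {v}
  | k + 1 => Aff R M v k ∪ {w | ∃ r ∈ R, r.head = w ∧
      ((w ∈ M ∧ ∃ u, (u ∈ r.pos ∨ u ∈ r.neg) ∧ u ∈ Aff R M v k) ∨
        (w ∉ M ∧ (∀ u ∈ r.pos, u ∉ M → u ∈ Aff R M v k) ∧
          (∀ u ∈ r.neg, u ∈ M → u ∈ Aff R M v k)))}

theorem Aff_mono {R : Finset (Rule A)} {M : Set A} {v : A} : Monotone (Aff R M v) :=
  monotone_nat_of_le_succ fun _ => Set.subset_union_left

/-- All affected atoms. -/
def AffAll (R : Finset (Rule A)) (M : Set A) (v : A) : Set A := ⋃ k, Aff R M v k

theorem mem_AffAll {R : Finset (Rule A)} {M : Set A} {v w : A} :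
    w ∈ AffAll R M v ↔ ∃ k, w ∈ Aff R M v k := by
  simp [AffAll]

theorem v_mem_AffAll {R : Finset (Rule A)} {M : Set A} {v : A} : v ∈ AffAll R M v :=
  mem_AffAll.2 ⟨0, rfl⟩

/-- an affected finite set is affected at one stage -/
theorem exists_stage {R : Finset (Rule A)} {M : Set A} {v : A} (S : Finset A)
    (h : ∀ u ∈ S, u ∈ AffAll R M v) : ∃ k, ∀ u ∈ S, u ∈ Aff R M v k := by
  classical
  induction S using Finset.induction_on with
  | empty => exact ⟨0, by simp⟩
  | insert a S ha ih =>
    obtain ⟨k, hk⟩ := ih fun u hu => h u (Finset.mem_insert_of_mem hu)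
    obtain ⟨l, hl⟩ := mem_AffAll.1 (h a (Finset.mem_insert_self _ _))
    refine ⟨max k l, fun u hu => ?_⟩
    rcases Finset.mem_insert.1 hu with rfl | hu
    · exact Aff_mono (le_max_right _ _) hl
    · exact Aff_mono (le_max_left _ _) (hk u hu)

/-- a true atom whose rule mentions an affected atom is affected -/
theorem aff_of_true {R : Finset (Rule A)} {M : Set A} {v : A} {r : Rule A} (hr : r ∈ R)
    (hM : r.head ∈ M) {u : A} (hu : u ∈ r.pos ∨ u ∈ r.neg) (hA : u ∈ AffAll R M v) :
    r.head ∈ AffAll R M v := by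
  obtain ⟨k, hk⟩ := mem_AffAll.1 hA
  exact mem_AffAll.2 ⟨k + 1, Or.inr ⟨r, hr, rfl, Or.inl ⟨hM, u, hu, hk⟩⟩⟩

/-- a false unaffected atom has a false literal on an unaffected atom in its rule -/
theorem exists_false_unaffected {R : Finset (Rule A)} {M : Set A} {v : A} {r : Rule A}
    (hr : r ∈ R) (hM : r.head ∉ M) (hA : r.head ∉ AffAll R M v) :
    (∃ u ∈ r.pos, u ∉ M ∧ u ∉ AffAll R M v) ∨ (∃ u ∈ r.neg, u ∈ M ∧ u ∉ AffAll R M v) := by
  classical
  by_contra hcon
  push Not at hcon
  obtain ⟨h1, h2⟩ := hcon
  obtain ⟨k, hk⟩ := exists_stage (R := R) (M := M) (v := v) (r.pos.filter fun u => u ∉ M)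
    (fun u hu => h1 u (Finset.mem_filter.1 hu).1 (Finset.mem_filter.1 hu).2)
  obtain ⟨l, hl⟩ := exists_stage (R := R) (M := M) (v := v) (r.neg.filter fun u => u ∈ M)
    (fun u hu => h2 u (Finset.mem_filter.1 hu).1 (Finset.mem_filter.1 hu).2)
  apply hA
  refine mem_AffAll.2 ⟨max k l + 1, Or.inr ⟨r, hr, rfl, Or.inr ⟨hM, ?_, ?_⟩⟩⟩
  · intro u hu hu'
    exact Aff_mono (le_max_left _ _) (hk u (Finset.mem_filter.2 ⟨hu, hu'⟩))
  · intro u hu hu'
    exact Aff_mono (le_max_right _ _) (hl u (Finset.mem_filter.2 ⟨hu, hu'⟩))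

/-- The rank of an affected atom. -/
noncomputable def rk (R : Finset (Rule A)) (M : Set A) (v w : A) : ℕ :=
  sInf {k | w ∈ Aff R M v k}

theorem mem_Aff_rk {R : Finset (Rule A)} {M : Set A} {v w : A} (h : w ∈ AffAll R M v) :
    w ∈ Aff R M v (rk R M v w) :=
  Nat.sInf_mem (s := {k | w ∈ Aff R M v k}) (mem_AffAll.1 h)

theorem rk_le {R : Finset (Rule A)} {M : Set A} {v w : A} {k : ℕ} (h : w ∈ Aff R M v k) :
    rk R M v w ≤ k := Nat.sInf_le h

/-- unfolding the reason why an atom is affected -/
theorem aff_cases {R : Finset (Rule A)} {M : Set A} {v w : A} (h : w ∈ AffAll R M v)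
    (hv : w ≠ v) : ∃ r ∈ R, r.head = w ∧
      ((w ∈ M ∧ ∃ u, (u ∈ r.pos ∨ u ∈ r.neg) ∧ u ∈ AffAll R M v ∧ rk R M v u < rk R M v w) ∨
        (w ∉ M ∧
          (∀ u ∈ r.pos, u ∉ M → u ∈ AffAll R M v ∧ rk R M v u < rk R M v w) ∧
          (∀ u ∈ r.neg, u ∈ M → u ∈ AffAll R M v ∧ rk R M v u < rk R M v w))) := by
  have h1 := mem_Aff_rk h
  rcases hk : rk R M v w with _ | k
  · rw [hk] at h1
    exact absurd h1 hv
  · rw [hk] at h1
    have hnot : w ∉ Aff R M v k := by
      intro hw
      have := rk_le hw
      omega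
    rcases h1 with h1 | h1
    · exact absurd h1 hnot
    · obtain ⟨r, hr, hhead, h2⟩ := h1
      refine ⟨r, hr, hhead, ?_⟩
      rcases h2 with ⟨hM, u, hu, hu'⟩ | ⟨hM, hp, hn⟩
      · exact Or.inl ⟨hM, u, hu, mem_AffAll.2 ⟨k, hu'⟩, Nat.lt_succ_of_le (rk_le hu')⟩
      · exact Or.inr ⟨hM, fun u hu hu' => ⟨mem_AffAll.2 ⟨k, hp u hu hu'⟩,
          Nat.lt_succ_of_le (rk_le (hp u hu hu'))⟩, fun u hu hu' =>
          ⟨mem_AffAll.2 ⟨k, hn u hu hu'⟩, Nat.lt_succ_of_le (rk_le (hn u hu hu'))⟩⟩

/-- A consistent arc between affected atoms of increasing rank. -/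
def Step (P R : Finset (Rule A)) (M : Set A) (v u w : A) (s : Bool) : Prop :=
  u ∈ AffAll R M v ∧ w ∈ AffAll R M v ∧ rk R M v u < rk R M v w ∧ w ≠ v ∧
    Arc P s u w ∧ (LitTrue M s u ↔ w ∈ M)

/-- A path of consistent arcs of length `m` from `v` to `w`. -/
def IsPath (P R : Finset (Rule A)) (M : Set A) (v : A) (m : ℕ) (c : ℕ → A) (sg : ℕ → Bool) :
    Prop :=
  c 0 = v ∧ ∀ i < m, Step P R M v (c i) (c (i + 1)) (sg i)

theorem exists_path {P R : Finset (Rule A)} {E M : Set A} {v : A} (hRP : R ⊆ P)
    (hU : UniRule R) (hst : StableRel R E M) (hRE : ∀ r ∈ R, r.head ∉ E) :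
    ∀ n w, w ∈ AffAll R M v → rk R M v w = n →
      ∃ m c sg, IsPath P R M v m c sg ∧ c m = w := by
  intro n
  induction n using Nat.strong_induction_on with
  | _ n ih =>
  intro w hw hrk
  by_cases hv : w = v
  · exact ⟨0, fun _ => v, fun _ => false, ⟨rfl, by simp⟩, hv.symm⟩
  · obtain ⟨r, hr, hhead, hcase⟩ := aff_cases hw hv
    -- find a predecessor
    have hpred : ∃ u s, Step P R M v u w s := by
      rcases hcase with ⟨hM, u, hu, huA, hlt⟩ | ⟨hM, hp, hn⟩
      · have hsup := hst.supported hU hr (hhead ▸ hM) (hRE r hr)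
        rcases hu with hu | hu
        · exact ⟨u, false, huA, hw, hlt, hv, ⟨r, hRP hr, hhead, by simpa using hu⟩, by
            simp only [LitTrue]
            simp [hM, hsup.2 u hu]⟩
        · exact ⟨u, true, huA, hw, hlt, hv, ⟨r, hRP hr, hhead, by simpa using hu⟩, by
            simp only [LitTrue]
            simp [hM, hsup.1 u hu]⟩
      · -- some literal is false
        have hfalse : ¬ ((∀ b ∈ r.neg, b ∉ M) ∧ (∀ a ∈ r.pos, a ∈ M)) := by
          rintro ⟨h1, h2⟩
          exact hM (hhead ▸ hst.2.1 r hr h1 h2)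
        by_cases h1 : ∀ b ∈ r.neg, b ∉ M
        · have h2 : ¬ ∀ a ∈ r.pos, a ∈ M := fun h2 => hfalse ⟨h1, h2⟩
          push Not at h2
          obtain ⟨u, hu, huM⟩ := h2
          exact ⟨u, false, (hp u hu huM).1, hw, (hp u hu huM).2, hv,
            ⟨r, hRP hr, hhead, by simpa using hu⟩, by
              simp only [LitTrue]
              simp [hM, huM]⟩
        · push Not at h1
          obtain ⟨u, hu, huM⟩ := h1
          exact ⟨u, true, (hn u hu huM).1, hw, (hn u hu huM).2, hv,
            ⟨r, hRP hr, hhead, by simpa using hu⟩, by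
              simp only [LitTrue]
              simp [hM, huM]⟩
    obtain ⟨u, s, hstep⟩ := hpred
    have hlt : rk R M v u < n := hrk ▸ hstep.2.2.1
    obtain ⟨m, c, sg, hpath, hcm⟩ := ih _ hlt u hstep.1 rfl
    refine ⟨m + 1, fun i => if i ≤ m then c i else w, fun i => if i < m then sg i else s,
      ⟨by simpa using hpath.1, ?_⟩, by simp⟩
    intro i hi
    rcases Nat.lt_or_ge i m with h | h
    · have := hpath.2 i h
      simpa [h, h.le, Nat.succ_le_of_lt h] using this
    · have : i = m := by omega
      subst this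
      simpa [hcm] using hstep

/-- the rank grows along a path -/
theorem path_rk_lt {P R : Finset (Rule A)} {M : Set A} {v : A} {m : ℕ} {c : ℕ → A}
    {sg : ℕ → Bool} (h : IsPath P R M v m c sg) {i j : ℕ} (hij : i < j) (hj : j ≤ m) :
    rk R M v (c i) < rk R M v (c j) := by
  induction j with
  | zero => omega
  | succ j ih =>
    have h1 := (h.2 j (by omega)).2.2.1
    rcases Nat.lt_succ_iff_lt_or_eq.1 hij with h2 | h2
    · exact (ih h2 (by omega)).trans h1
    · subst h2
      exact h1

theorem path_mem {P R : Finset (Rule A)} {M : Set A} {v : A} {m : ℕ} {c : ℕ → A}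
    {sg : ℕ → Bool} (h : IsPath P R M v m c sg) {i : ℕ} (hi : i ≤ m) :
    c i ∈ AffAll R M v := by
  rcases i with _ | i
  · rw [h.1]; exact v_mem_AffAll
  · exact (h.2 i (by omega)).2.1

/-- the value of the end of a path is the parity of the number of negative arcs -/
theorem path_parity {P R : Finset (Rule A)} {M : Set A} {v : A} {m : ℕ} {c : ℕ → A}
    {sg : ℕ → Bool} (h : IsPath P R M v m c sg) (hvM : v ∉ M) :
    ∀ j ≤ m, (c j ∈ M ↔ Odd (∑ i ∈ Finset.range j, if sg i = true then 1 else 0)) := by
  intro j
  induction j with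
  | zero =>
    intro _
    rw [h.1]
    simp [hvM]
  | succ j ih =>
    intro hj
    have ih' := ih (by omega)
    have hs := (h.2 j (by omega)).2.2.2.2.2
    rw [← hs, Finset.sum_range_succ]
    cases hsg : sg j
    · simp [LitTrue, ih']
    · simp only [LitTrue, if_true, ih']
      rw [Nat.odd_add_one]

/-- the key contradiction: no odd cycle without internal delocalizing triple -/
theorem no_reaffected {P R : Finset (Rule A)} {E M : Set A} {r0 : Rule A} (hUP : UniRule P)
    (hC : ∀ C : SignedCycle P, C.IsOdd → C.HasInternalDelocalizingTriple)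
    (hRP : R ⊆ P) (hr0 : r0 ∈ P) (hst : StableRel R E M)
    (hRE : ∀ r ∈ R, r.head ∉ E)
    (hvM : r0.head ∉ M) (hneg : ∀ b ∈ r0.neg, b ∉ M) (hpos : ∀ a ∈ r0.pos, a ∈ M)
    {u : A} (hu : u ∈ r0.pos ∨ u ∈ r0.neg) (huA : u ∈ AffAll R M r0.head) : False := by
  classical
  have hU : UniRule R := fun r hr s hs => hUP r (hRP hr) s (hRP hs)
  set v := r0.head with hv
  let Q : ℕ → Prop := fun m => ∃ c sg, IsPath P R M v m c sg ∧ (c m ∈ r0.pos ∨ c m ∈ r0.neg)
  have hQ : ∃ m, Q m := by
    obtain ⟨m, c, sg, hp, hcm⟩ := exists_path (P := P) (v := v) hRP hU hst hRE _ u huA rfl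
    exact ⟨m, c, sg, hp, hcm ▸ hu⟩
  obtain ⟨c, sg, hp, hcm⟩ := Nat.find_spec hQ
  set m := Nat.find hQ with hm
  have hmin : ∀ m' < m, ¬ Q m' := fun m' h => Nat.find_min hQ h
  -- the sign of the closing arc
  obtain ⟨s0, hs0mem, hs0lit⟩ : ∃ s0 : Bool, c m ∈ (if s0 then r0.neg else r0.pos) ∧
      LitTrue M s0 (c m) := by
    rcases hcm with h | h
    · exact ⟨false, by simpa using h, by simpa [LitTrue] using hpos _ h⟩
    · exact ⟨true, by simpa using h, by simpa [LitTrue] using hneg _ h⟩
  let sg' : ℕ → Bool := fun i => if i < m then sg i else s0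
  have hinj : ∀ i j, i ≤ m → j ≤ m → c i = c j → i = j := by
    intro i j hi hj hij
    rcases lt_trichotomy i j with h | h | h
    · have := path_rk_lt hp h hj
      rw [hij] at this
      omega
    · exact h
    · have := path_rk_lt hp h hi
      rw [hij] at this
      omega
  let C : SignedCycle P :=
    { len := m
      vert := fun i => c i.val
      inj := fun i j hij => Fin.ext (hinj _ _ (Nat.lt_succ_iff.1 i.2) (Nat.lt_succ_iff.1 j.2) hij)
      negative := fun i => sg' i.val
      arc := by
        intro i
        by_cases hi : i.val < m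
        · have h1 : ((i + 1 : Fin (m + 1)) : ℕ) = i.val + 1 := by
            rw [Fin.val_add_one]
            rw [if_neg]
            intro h
            rw [h] at hi
            simp at hi
          have := (hp.2 i.val hi).2.2.2.2.1
          simpa [sg', hi, h1] using this
        · have hi' : i = Fin.last m := by
            apply Fin.ext
            have := i.2
            simp
            omega
          subst hi'
          have h1 : ((Fin.last m + 1 : Fin (m + 1)) : ℕ) = 0 := by
            rw [Fin.val_add_one]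
            simp
          rw [h1]
          simp only [Fin.val_last, sg', lt_irrefl, if_false]
          rw [hp.1]
          exact ⟨r0, hr0, rfl, hs0mem⟩ }
  have hodd : C.IsOdd := by
    have h1 := path_parity hp hvM m le_rfl
    unfold SignedCycle.IsOdd
    rw [Finset.card_filter]
    have h2 : (∑ i : Fin (C.len + 1), if C.negative i = true then 1 else 0)
        = ∑ i ∈ Finset.range (m + 1), if sg' i = true then 1 else 0 :=
      Fin.sum_univ_eq_sum_range (fun i => if sg' i = true then 1 else 0) (m + 1)
    rw [h2, Finset.sum_range_succ]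
    have h3 : (∑ i ∈ Finset.range m, if sg' i = true then 1 else 0)
        = ∑ i ∈ Finset.range m, if sg i = true then 1 else 0 := by
      apply Finset.sum_congr rfl
      intro i hi
      have := Finset.mem_range.1 hi
      simp [sg', this]
    rw [h3]
    have h4 : sg' m = s0 := by simp [sg']
    rw [h4]
    cases hs : s0
    · rw [hs] at hs0lit
      have : c m ∈ M := by simpa [LitTrue] using hs0lit
      simpa using h1.1 this
    · rw [hs] at hs0lit
      have h5 : c m ∉ M := by simpa [LitTrue] using hs0lit
      have h6 : ¬ Odd (∑ i ∈ Finset.range m, if sg i = true then 1 else 0) :=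
        fun h => h5 (h1.2 h)
      simp only [if_true]
      rw [Nat.odd_add_one]
      exact h6
  obtain ⟨x, v₁, v₂, hx, hv₁, hv₂, -, harc₁, he₁, harc₂, he₂⟩ := hC C hodd
  -- the chord with a false literal
  obtain ⟨w, s, hw, harc, he, hlit⟩ : ∃ w s, w ∈ C.verts ∧ Arc P s x w ∧
      (x, w, s) ∉ C.edges ∧ ¬ LitTrue M s x := by
    by_cases hxM : x ∈ M
    · exact ⟨v₂, true, hv₂, harc₂, he₂, by simp [LitTrue, hxM]⟩
    · exact ⟨v₁, false, hv₁, harc₁, he₁, by simp [LitTrue, hxM]⟩
  obtain ⟨j, rfl⟩ := hw
  obtain ⟨i, rfl⟩ := hx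
  obtain ⟨r, hr, hhead, hmem⟩ := harc
  -- `r` has a false literal, so the head is not `v`
  have hfl : ¬ ((∀ b ∈ r.neg, b ∉ M) ∧ (∀ a ∈ r.pos, a ∈ M)) := by
    rintro ⟨h1, h2⟩
    cases s
    · exact hlit (by simpa [LitTrue] using h2 _ (by simpa using hmem))
    · exact hlit (by simpa [LitTrue] using h1 _ (by simpa using hmem))
  have hjm : j.val ≤ m := Nat.lt_succ_iff.1 j.2
  have him : i.val ≤ m := Nat.lt_succ_iff.1 i.2
  have hj0 : j.val ≠ 0 := by
    intro h0
    have h1 : r.head = v := by
      rw [hhead]
      show c j.val = v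
      rw [h0, hp.1]
    have h2 : r = r0 := hUP r hr r0 hr0 h1
    subst h2
    exact hfl ⟨hneg, hpos⟩
  obtain ⟨j', hj'⟩ : ∃ j', j.val = j' + 1 := ⟨j.val - 1, by omega⟩
  have hstep := hp.2 j' (by omega)
  have hwv : c j.val ≠ v := by rw [hj']; exact hstep.2.2.2.1
  have hwA : c j.val ∈ AffAll R M v := path_mem hp hjm
  obtain ⟨r', hr', hhead', hcase⟩ := aff_cases hwA hwv
  have hrr' : r' = r := hUP r' (hRP hr') r hr (hhead'.trans hhead.symm)
  subst hrr'
  rcases hcase with ⟨hM, -⟩ | ⟨hM, hpp, hnn⟩
  · have := hst.supported hU hr' (hhead' ▸ hM) (hRE _ hr')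
    exact hfl this
  · -- `x` is affected with smaller rank
    have hlt : rk R M v (c i.val) < rk R M v (c j.val) := by
      cases s
      · exact (hpp _ (by simpa using hmem) (by simpa [LitTrue] using hlit)).2
      · exact (hnn _ (by simpa using hmem) (by simpa [LitTrue] using hlit)).2
    have hij : i.val < j.val := by
      by_contra hcon
      rcases Nat.lt_or_ge j.val i.val with h | h
      · have := path_rk_lt hp h him
        omega
      · have : i.val = j.val := by omega
        rw [this] at hlt
        omega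
    by_cases hadj : j.val = i.val + 1
    · -- then the chord is an arc of the cycle
      apply he
      refine ⟨i, ?_⟩
      have him' : i.val < m := by omega
      have h1 : i + 1 = j := by
        apply Fin.ext
        show ((i + 1 : Fin (m + 1)) : ℕ) = j.val
        rw [Fin.val_add_one, if_neg, hadj]
        intro h
        rw [h] at him'
        exact lt_irrefl m him'
      have h2 := (hp.2 i.val him').2.2.2.2.2
      rw [← hadj] at h2
      have h3 : ¬ LitTrue M (sg i.val) (c i.val) := fun h => hM (h2.1 h)
      have h4 : sg i.val = s := by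
        have hlit' : ¬ LitTrue M s (c i.val) := hlit
        cases hs1 : sg i.val <;> cases hs2 : s
        · rfl
        · rw [hs1] at h3
          rw [hs2] at hlit'
          simp [LitTrue] at h3 hlit'
          exact absurd hlit' h3
        · rw [hs1] at h3
          rw [hs2] at hlit'
          simp [LitTrue] at h3 hlit'
          exact absurd h3 hlit'
        · rfl
      show (C.vert i, C.vert (i + 1), C.negative i) = (C.vert i, C.vert j, s)
      rw [h1]
      have h5 : C.negative i = s := by
        show sg' i.val = s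
        simp [sg', him', h4]
      rw [h5]
    · -- shortcut
      have hstep' : Step P R M v (c i.val) (c j.val) s :=
        ⟨path_mem hp him, hwA, hlt, hwv, ⟨r', hr, hhead, hmem⟩,
          ⟨fun h => absurd h hlit, fun h => absurd h hM⟩⟩
      obtain ⟨d, hd⟩ : ∃ d, j.val = i.val + 1 + d := ⟨j.val - (i.val + 1), by omega⟩
      have hd0 : 0 < d := by omega
      refine hmin (m - d) (by omega) ⟨fun k => if k ≤ i.val then c k else c (k + d),
        fun k => if k < i.val then sg k else if k = i.val then s else sg (k + d),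
        ⟨by simpa using hp.1, ?_⟩, ?_⟩
      · intro k hk
        rcases lt_trichotomy k i.val with h | h | h
        · have := hp.2 k (by omega)
          simpa [h, h.le, Nat.succ_le_of_lt h] using this
        · subst h
          have e : i.val + 1 + d = j.val := hd.symm
          simpa [e] using hstep'
        · have := hp.2 (k + d) (by omega)
          have e1 : ¬ k ≤ i.val := by omega
          have e2 : ¬ k + 1 ≤ i.val := by omega
          have e3 : ¬ k < i.val := by omega
          have e4 : k ≠ i.val := by omega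
          have e5 : k + 1 + d = k + d + 1 := by omega
          simp only [e1, e2, e3, e4, e5, if_false]
          exact this
      · have e1 : ¬ m - d ≤ i.val := by omega
        have e2 : m - d + d = m := by omega
        simp only [e1, if_false, e2]
        exact hcm

/-- the main induction -/
theorem main {P : Finset (Rule A)} (hUP : UniRule P)
    (hC : ∀ C : SignedCycle P, C.IsOdd → C.HasInternalDelocalizingTriple) :
    ∀ n, ∀ R : Finset (Rule A), R ⊆ P → R.card = n → ∀ E : Set A,
      (∀ r ∈ R, r.head ∉ E) → ∃ M, StableRel R E M := by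
  classical
  intro n
  induction n using Nat.strong_induction_on with
  | _ n ih =>
  intro R hRP hcard E hRE
  rcases R.eq_empty_or_nonempty with hR | ⟨r0, hr0⟩
  · subst hR
    exact ⟨E, subset_rfl, by intro r hr; simp at hr, fun X h _ => h⟩
  · have hU : UniRule R := fun r hr s hs => hUP r (hRP hr) s (hRP hs)
    have hR'sub : R.erase r0 ⊆ R := Finset.erase_subset _ _
    have hR'P : R.erase r0 ⊆ P := hR'sub.trans hRP
    have hR'E : ∀ r ∈ R.erase r0, r.head ∉ E := fun r hr => hRE r (hR'sub hr)
    have hcard' : (R.erase r0).card < n := by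
      rw [← hcard]; exact Finset.card_erase_lt_of_mem hr0
    obtain ⟨M0, hM0⟩ := ih _ hcard' (R.erase r0) hR'P rfl E hR'E
    have hvM : r0.head ∉ M0 := by
      intro h
      obtain ⟨r, hr, hhead⟩ := hM0.subset_heads h (hRE r0 hr0)
      have := hU r (hR'sub hr) r0 hr0 hhead
      subst this
      exact (Finset.mem_erase.1 hr).1 rfl
    by_cases hbody : (∀ b ∈ r0.neg, b ∉ M0) ∧ (∀ a ∈ r0.pos, a ∈ M0)
    · obtain ⟨hneg, hpos⟩ := hbody
      have hunaff : ∀ u, (u ∈ r0.pos ∨ u ∈ r0.neg) → u ∉ AffAll (R.erase r0) M0 r0.head :=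
        fun u hu huA => no_reaffected hUP hC hR'P (hRP hr0) hM0 hR'E hvM hneg hpos hu huA
      set F : Set A := AffAll (R.erase r0) M0 r0.head with hF
      let R2 : Finset (Rule A) := (R.erase r0).filter fun r => r.head ∈ F
      let E2 : Set A := E ∪ {r0.head} ∪ (M0 \ F)
      have hR2sub : R2 ⊆ R.erase r0 := Finset.filter_subset _ _
      have hR2E : ∀ r ∈ R2, r.head ∉ E2 := by
        intro r hr
        have hr1 := (Finset.mem_filter.1 hr).1
        have hr2 := (Finset.mem_filter.1 hr).2
        rintro ((h | h) | h)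
        · exact hR'E r hr1 h
        · have := hU r (hR'sub hr1) r0 hr0 h
          subst this
          exact (Finset.mem_erase.1 hr1).1 rfl
        · exact h.2 hr2
      have hcard2 : R2.card < n := lt_of_le_of_lt (Finset.card_le_card hR2sub) hcard'
      obtain ⟨M1, hM1⟩ := ih _ hcard2 R2 (hR2sub.trans hR'P) rfl E2 hR2E
      have hvF : r0.head ∈ F := v_mem_AffAll
      -- outside `F` the two agree
      have hagree : ∀ w, w ∉ F → (w ∈ M1 ↔ w ∈ M0) := by
        intro w hwF
        constructor
        · intro hw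
          by_cases hE2 : w ∈ E2
          · rcases hE2 with (h | h) | h
            · exact hM0.1 h
            · exact absurd (h ▸ hvF) hwF
            · exact h.1
          · obtain ⟨r, hr, hhead⟩ := hM1.subset_heads hw hE2
            exact absurd (hhead ▸ (Finset.mem_filter.1 hr).2) hwF
        · intro hw
          exact hM1.1 (Or.inr ⟨hw, hwF⟩)
      refine ⟨M1, ?_, ?_, ?_⟩
      · intro x hx
        exact hM1.1 (Or.inl (Or.inl hx))
      · intro r hr hn hp
        by_cases hrr : r = r0
        · subst hrr
          exact hM1.1 (Or.inl (Or.inr rfl))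
        · have hr' : r ∈ R.erase r0 := Finset.mem_erase.2 ⟨hrr, hr⟩
          by_cases hF' : r.head ∈ F
          · exact hM1.2.1 r (Finset.mem_filter.2 ⟨hr', hF'⟩) hn hp
          · by_cases hM : r.head ∈ M0
            · exact (hagree _ hF').2 hM
            · exfalso
              rcases exists_false_unaffected hr' hM hF' with ⟨u, hu, huM, huF⟩ | ⟨u, hu, huM, huF⟩
              · exact huM ((hagree u huF).1 (hp u hu))
              · exact hn u hu ((hagree u huF).2 huM)
      · intro X hEX hX
        -- first the unaffected true atoms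
        have hS : M0 \ F ⊆ X := by
          have h1 : M0 ⊆ (X ∪ F) ∩ M0 := by
            refine hM0.2.2 _ (fun x hx => ⟨Or.inl (hEX hx), hM0.1 hx⟩) ?_
            intro r hr hn hp
            have hhM : r.head ∈ M0 := hM0.2.1 r hr hn (fun a ha => (hp a ha).2)
            refine ⟨?_, hhM⟩
            by_cases hF' : r.head ∈ F
            · exact Or.inr hF'
            · left
              have hun : ∀ u, (u ∈ r.pos ∨ u ∈ r.neg) → u ∉ F :=
                fun u hu huF => hF' (aff_of_true hr hhM hu huF)
              refine hX r (hR'sub hr) ?_ ?_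
              · intro b hb hbM
                exact hn b hb ((hagree b (hun b (Or.inr hb))).1 hbM)
              · intro a ha
                rcases (hp a ha).1 with h | h
                · exact h
                · exact absurd h (hun a (Or.inl ha))
          intro x hx
          rcases (h1 hx.1).1 with h | h
          · exact h
          · exact absurd h hx.2
        refine hM1.2.2 X ?_ ?_
        · rintro x ((h | h) | h)
          · exact hEX h
          · have hx : x = r0.head := h
            rw [hx]
            refine hX r0 hr0 ?_ ?_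
            · intro b hb hbM
              exact hneg b hb ((hagree b (hunaff b (Or.inr hb))).1 hbM)
            · intro a ha
              exact hS ⟨hpos a ha, hunaff a (Or.inl ha)⟩
          · exact hS h
        · intro r hr
          exact hX r (hR'sub (hR2sub hr))
    · -- the body of `r0` is false, so `M0` works
      refine ⟨M0, hM0.1, ?_, ?_⟩
      · intro r hr hn hp
        by_cases hrr : r = r0
        · subst hrr
          exact absurd ⟨hn, hp⟩ hbody
        · exact hM0.2.1 r (Finset.mem_erase.2 ⟨hrr, hr⟩) hn hp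
      · intro X hE hX
        exact hM0.2.2 X hE (fun r hr => hX r (hR'sub hr))

/-- Every uni-rule program in which every odd cycle of the atom dependency graph has an internal
delocalizing triple has a stable model. -/
theorem result {A : Type*} (P : Finset (Rule A)) (hU : UniRule P)
    (hC : ∀ C : SignedCycle P, C.IsOdd → C.HasInternalDelocalizingTriple) :
    ∃ M : Set A, IsStableModel P M := by
  obtain ⟨M, hM⟩ := main hU hC _ P subset_rfl rfl ∅ (by simp)
  exact ⟨M, hM.2.1, fun X hX => hM.2.2 X (Set.empty_subset _) hX⟩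

end Pool.Agent.Results.MP_d24a2a_lc.UniRuleStable
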